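import Pool.Agent.Helper65.KPV.St

set_option autoImplicit false

namespace Pool.Agent.Helper81.KPV

open Pool.Agent.Helper65.KPV Pool.Agent.Helper5.KPA Pool.Agent.Helper52.KP

section Gen

variable {S : Type} [CommRing S] [Algebra ℂ S]

theorem bab_fg (B : Subalgebra ℂ S) (G : ℕ → Submodule ℂ S) (hG : GrA G)
    (hB : Subalgebra.toSubmodule B = ⨆ k, G k) : B.FG := by
  classical
  haveI : FiniteDimensional ℂ (G 1) := hG.fd 1
  obtain ⟨t, ht⟩ : (G 1).FG := (Submodule.fg_iff_finiteDimensional (G 1)).2 (hG.fd 1)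
  refine ⟨t, le_antisymm ?_ ?_⟩
  · refine Algebra.adjoin_le fun x hx => ?_
    have h1 : x ∈ G 1 := by rw [← ht]; exact Submodule.subset_span hx
    have h2 : x ∈ Subalgebra.toSubmodule B := by
      rw [hB]; exact Submodule.mem_iSup_of_mem 1 h1
    exact h2
  · have h1 : ∀ x ∈ G 1, x ∈ Algebra.adjoin ℂ (t : Set S) := by
      intro x hx
      rw [← ht] at hx
      exact Algebra.span_le_adjoin ℂ _ hx
    have hk : ∀ k, G k ≤ Subalgebra.toSubmodule (Algebra.adjoin ℂ (t : Set S)) := by
      intro k
      induction k with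
      | zero =>
        rw [hG.zero, Submodule.span_le]
        intro x hx
        rw [Set.mem_singleton_iff] at hx
        subst hx
        exact one_mem (Algebra.adjoin ℂ (t : Set S))
      | succ k ih =>
        rw [hG.gen k, Submodule.span_le]
        rintro b ⟨x, hx, y, hy, rfl⟩
        exact mul_mem (S := Subalgebra ℂ S) (ih hx) (h1 y hy)
    have h3 : Subalgebra.toSubmodule B ≤ Subalgebra.toSubmodule (Algebra.adjoin ℂ (t : Set S)) := by
      rw [hB]; exact iSup_le hk
    exact fun x hx => h3 hx

theorem bab_ic [IsDomain S] (B : Subalgebra ℂ S) (hc : IsIntegrallyClosed B) (x : S)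
    (hq : QB B x) (hx : IsIntegral B x) : x ∈ B := by
  obtain ⟨s, hs, hs0, hsx⟩ := hq
  let K := FractionRing B
  let L := FractionRing S
  have hinj : Function.Injective (algebraMap B L) := by
    have : (algebraMap B L) = (algebraMap S L).comp (algebraMap B S) := rfl
    rw [this]
    exact (IsFractionRing.injective S L).comp Subtype.val_injective
  let g : K →ₐ[B] L := IsFractionRing.liftAlgHom (g := Algebra.ofId B L) hinj
  have hg : Function.Injective g := g.toRingHom.injective
  let y : K := algebraMap B K ⟨s * x, hsx⟩ / algebraMap B K ⟨s, hs⟩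
  have hgy : g y = algebraMap S L x := by
    have e1 : g (algebraMap B K ⟨s * x, hsx⟩) = algebraMap S L (s * x) := g.commutes _
    have e2 : g (algebraMap B K ⟨s, hs⟩) = algebraMap S L s := g.commutes _
    have e3 : algebraMap S L s ≠ 0 := by
      rw [Ne, IsFractionRing.to_map_eq_zero_iff]; exact hs0
    change g (algebraMap B K ⟨s * x, hsx⟩ / algebraMap B K ⟨s, hs⟩) = _
    rw [map_div₀, e1, e2, map_mul, mul_div_assoc, mul_comm, div_mul_cancel₀ _ e3]
  have hxL : IsIntegral B (algebraMap S L x) := hx.map (IsScalarTower.toAlgHom B S L)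
  have hy : IsIntegral B y := by
    rw [← isIntegral_algHom_iff g hg, hgy]; exact hxL
  obtain ⟨b, hb⟩ := IsIntegrallyClosed.isIntegral_iff.1 hy
  have h1 : algebraMap S L (b : S) = algebraMap S L x := by
    rw [← hgy, ← hb]
    exact (g.commutes b).symm
  rw [← IsFractionRing.injective S L h1]
  exact b.2

end Gen

theorem hBAB (hAGR : StAGR) (hBAA : StBAA) : StBAB := by
  intro C hC r F hF
  have h1 : IsIntegrallyClosed (BA F) := hF.normal
  have h2 : (BA F).FG := bab_fg (BA F) (BB F) (hAGR C hC r F hF).1 (hBAA C hC r F hF).1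
  exact ⟨isNoetherianRing_of_fg h2, fun x hq hx => bab_ic (BA F) h1 x hq hx⟩

end Pool.Agent.Helper81.KPV
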